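import Pool.Agent.N623.CS.Stm

/-!
Project CS (helper623): minimal closed left ideals (part IDEAL, written by helper284).
-/

set_option autoImplicit false

namespace Pool.Agent.N284.CS

theorem t_ideal : Pool.Agent.N623.CS.S_IDEAL := by
  intro M _ _ _ _ _ hc
  let S : Set (Set M) := {N | IsClosed N ∧ N.Nonempty ∧ ∀ (x : M), ∀ y ∈ N, x * y ∈ N}
  obtain ⟨L, hL⟩ : ∃ L, Minimal (· ∈ S) L := by
    refine zorn_superset _ fun c hcs hch => ?_
    refine ⟨⋂₀ c, ⟨isClosed_sInter fun t ht => (hcs ht).1, ?_, fun x y hy => ?_⟩, fun s hs =>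
      Set.sInter_subset_of_mem hs⟩
    · obtain rfl | hcne := c.eq_empty_or_nonempty
      · rw [Set.sInter_empty]
        exact Set.univ_nonempty
      · rw [Set.sInter_eq_iInter]
        have := hcne.coe_sort
        refine IsCompact.nonempty_iInter_of_directed_nonempty_isCompact_isClosed _ ?_ ?_ ?_ ?_
        · exact DirectedOn.directed_val (IsChain.directedOn hch.symm)
        · exact fun i => (hcs i.prop).2.1
        · exact fun i => (hcs i.prop).1.isCompact
        · exact fun i => (hcs i.prop).1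
    · rw [Set.mem_sInter]
      exact fun t ht => (hcs ht).2.2 x y (Set.mem_sInter.mp hy t ht)
  obtain ⟨hcl, hne, hmul⟩ := hL.prop
  refine ⟨L, hne, hcl, hmul, fun f hf y hy => ?_⟩
  have himg : (· * f) '' (Set.univ : Set M) = L := by
    refine hL.eq_of_subset ?_ ?_
    · refine ⟨(hc f).isClosedMap _ isClosed_univ, ⟨_, ⟨f, Set.mem_univ _, rfl⟩⟩, ?_⟩
      rintro x _ ⟨m, _, rfl⟩
      exact ⟨x * m, Set.mem_univ _, mul_assoc _ _ _⟩
    · rintro _ ⟨m, _, rfl⟩
      exact hmul m f hf
  rw [← himg] at hy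
  obtain ⟨z, _, hz⟩ := hy
  exact ⟨z, hz.symm⟩

end Pool.Agent.N284.CS
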